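import Mathlib
import Pool.Agent.Q46.FrusG

/-! # Graphs with few frustrated cycles are close to complete bipartite graphs -/

namespace Pool.Agent.Results.MP_9feecb_co.FewFrustratedCycles

open Q46.Frus

/-- For every `k ≥ 3` and `t`, for `n` large, a graph on `n` vertices with fewer frustrated
`k`-cycles than the star with `t + 1` leaves and `n - t - 2` isolated vertices is, itself or
its complement, within `t` flips of a complete bipartite graph on the same vertex set. -/
theorem result (k : ℕ) (hk : 3 ≤ k) (t : ℕ) : ∃ n₀ : ℕ, ∀ n ≥ n₀, ∀ G : SimpleGraph (Fin n),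
    frustrated k G < frustrated k (star n (t + 1)) →
    ∃ A : Set (Fin n), diffPairs G (bip A) ≤ t ∨ diffPairs Gᶜ (bip A) ≤ t := by
  obtain ⟨m, rfl⟩ := Nat.exists_eq_add_of_le hk
  rw [Nat.add_comm 3 m]
  exact main m t

end Pool.Agent.Results.MP_9feecb_co.FewFrustratedCycles
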